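import Mathlib

/-!
# MP_231ef3_gt: the Tychonoff plank is not set-self-Tietze
-/

set_option autoImplicit false

open Set Topology Ordinal Filter
open scoped Ordinal

universe u v

namespace Pool.Agent.Results.MP_231ef3_gt.PlankFails

/-- upper semi-continuity of a set-valued map -/
def USC {Y : Type u} {X : Type v} [TopologicalSpace Y] [TopologicalSpace X] (F : Y → Set X) : Prop :=
  ∀ U : Set X, IsOpen U → IsOpen {y : Y | F y ⊆ U}

/-- `F` takes its values in `2^X`, the family of nonempty closed subsets of `X` -/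
def ClosedValued {Y : Type u} {X : Type v} [TopologicalSpace X] (F : Y → Set X) : Prop :=
  ∀ y, (F y).Nonempty ∧ IsClosed (F y)

/-- set-self-Tietze spaces -/
def SetSelfTietze (X : Type u) [TopologicalSpace X] : Prop :=
  ∀ A : Set X, IsClosed A → ∀ f : A → Set X, ClosedValued f → USC f →
    ∃ F : X → Set X, ClosedValued F ∧ USC F ∧ ∀ a : A, F a = f a

/-- the Tychonoff plank `[0, ω₁] × [0, ω]` -/
abbrev Plank : Type 1 := (Iic (ω₁ : Ordinal.{0})) × (Iic (ω : Ordinal.{0}))

abbrev P : Type 1 := Iic (ω₁ : Ordinal.{0})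
abbrev Q : Type 1 := Iic (ω : Ordinal.{0})

noncomputable def ptop : P := ⟨ω₁, mem_Iic.mpr le_rfl⟩
noncomputable def p0 : P := ⟨0, mem_Iic.mpr bot_le⟩
noncomputable def qn (n : ℕ) : Q := ⟨n, mem_Iic.mpr (natCast_lt_omega0 n).le⟩
noncomputable def qtop : Q := ⟨ω, mem_Iic.mpr le_rfl⟩

theorem isOpen_nat (n : ℕ) : IsOpen ({(n : Ordinal.{0})} : Set Ordinal.{0}) := by
  rw [SuccOrder.isOpen_singleton_iff]
  intro h
  exact lt_irrefl _ (natCast_lt_of_isSuccLimit h n)

theorem isOpen_p0 : IsOpen ({p0} : Set P) := by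
  have h : IsOpen ((Subtype.val : P → Ordinal) ⁻¹' {((0 : ℕ) : Ordinal.{0})}) :=
    (isOpen_nat 0).preimage continuous_subtype_val
  convert h using 1
  ext x
  simp only [mem_singleton_iff, mem_preimage, Nat.cast_zero]
  exact ⟨fun h => by rw [h]; rfl, fun h => Subtype.ext h⟩

theorem isOpen_qn (n : ℕ) : IsOpen ({qn n} : Set Q) := by
  have h : IsOpen ((Subtype.val : Q → Ordinal) ⁻¹' {(n : Ordinal.{0})}) :=
    (isOpen_nat n).preimage continuous_subtype_val
  convert h using 1
  ext x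
  simp only [mem_singleton_iff, mem_preimage]
  exact ⟨fun h => by rw [h]; rfl, fun h => Subtype.ext h⟩

theorem evP {V : Set P} (hV : IsOpen V) (h : ptop ∈ V) : ∃ a : Ordinal.{0}, a < ω₁ ∧ ∀ b : P, a < b.1 → b ∈ V := by
  obtain ⟨l, hl, hl2⟩ := exists_Ioc_subset_of_mem_nhds (hV.mem_nhds h)
    ⟨p0, (show (0 : Ordinal) < ω₁ from omega0_pos.trans omega0_lt_omega_one)⟩
  exact ⟨l.1, hl, fun b hb => hl2 ⟨hb, mem_Iic.mp b.2⟩⟩

theorem evQ {V : Set Q} (hV : IsOpen V) (h : qtop ∈ V) : ∃ n : ℕ, ∀ m : ℕ, n < m → qn m ∈ V := by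
  obtain ⟨l, hl, hl2⟩ := exists_Ioc_subset_of_mem_nhds (hV.mem_nhds h)
    ⟨qn 0, (show ((0 : ℕ) : Ordinal) < ω from natCast_lt_omega0 0)⟩
  obtain ⟨n, hn⟩ := lt_omega0.mp (show l.1 < ω from hl)
  refine ⟨n, fun m hm => hl2 ⟨?_, mem_Iic.mp (qn m).2⟩⟩
  change l.1 < (m : Ordinal)
  rw [hn]
  exact_mod_cast hm

theorem lt_or_eq_P (x : P) : x.1 < ω₁ ∨ x = ptop := by
  rcases lt_or_eq_of_le (mem_Iic.mp x.2) with h | h
  · exact Or.inl h
  · exact Or.inr (Subtype.ext h)

theorem nat_or_eq_Q (y : Q) : (∃ n, y = qn n) ∨ y = qtop := by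
  rcases lt_or_eq_of_le (mem_Iic.mp y.2) with h | h
  · obtain ⟨n, hn⟩ := lt_omega0.mp h
    exact Or.inl ⟨n, Subtype.ext hn⟩
  · exact Or.inr (Subtype.ext h)

theorem qn_inj {m n : ℕ} (h : qn m = qn n) : m = n := by
  have h2 : ((m : ℕ) : Ordinal.{0}) = (n : ℕ) := congrArg Subtype.val h
  exact_mod_cast h2

theorem qn_ne_qtop (n : ℕ) : qn n ≠ qtop := fun h =>
  (natCast_lt_omega0 n).ne (congrArg Subtype.val h)

theorem p0_ne_ptop : p0 ≠ ptop := fun h =>
  (omega0_pos.trans omega0_lt_omega_one).ne (congrArg Subtype.val h)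

/-- the closed set: the top edge and the right edge -/
def A : Set Plank := {x | x.2 = qtop ∨ x.1 = ptop}

theorem isClosed_A : IsClosed A :=
  (isClosed_singleton.preimage continuous_snd).union (isClosed_singleton.preimage continuous_fst)

open Classical in
/-- the partial set-valued map (as a function on the whole plank, used on `A` only) -/
noncomputable def f (x : Plank) : Set Plank :=
  if x.1 = ptop then (if x.2 = qtop then {(p0, qn 0), (p0, qtop)} else {(p0, x.2)}) else {(p0, qn 0)}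

theorem f_right (n : ℕ) : f (ptop, qn n) = {(p0, qn n)} := by
  simp [f, qn_ne_qtop n]

theorem f_top {x : P} (hx : x ≠ ptop) : f (x, qtop) = {(p0, qn 0)} := by
  simp [f, hx]

theorem f_corner : f (ptop, qtop) = {(p0, qn 0), (p0, qtop)} := by
  simp [f]

theorem usc_f : USC (fun a : A => f a.1) := by
  intro U hU
  rw [isOpen_iff_mem_nhds]
  rintro ⟨⟨x, y⟩, hxy⟩ hmem
  simp only [mem_ofPred_eq] at hmem
  rcases lt_or_eq_P x with hx | rfl
  · -- a point of the top edge, not the corner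
    have hxne : x ≠ ptop := fun h => hx.ne (congrArg Subtype.val h)
    have hy : y = qtop := by
      rcases hxy with h | h
      · exact h
      · exact absurd h hxne
    subst hy
    rw [f_top hxne] at hmem
    have ho : IsOpen {a : A | a.1.1 ≠ ptop} :=
      (isClosed_singleton (x := ptop)).isOpen_compl.preimage (continuous_fst.comp continuous_subtype_val)
    refine mem_nhds_iff.mpr ⟨_, ?_, ho, hxne⟩
    rintro ⟨⟨x', y'⟩, hxy'⟩ hx'
    have hx'' : x' ≠ ptop := hx'
    have hy' : y' = qtop := by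
      rcases hxy' with h | h
      · exact h
      · exact absurd h hx''
    subst hy'
    simp only [mem_ofPred_eq]
    rw [f_top hx'']
    exact hmem
  · rcases nat_or_eq_Q y with ⟨n, rfl⟩ | rfl
    · -- isolated points of `A`
      have ho : IsOpen {a : A | a.1.2 ∈ ({qn n} : Set Q)} :=
        (isOpen_qn n).preimage (continuous_snd.comp continuous_subtype_val)
      refine mem_nhds_iff.mpr ⟨_, ?_, ho, rfl⟩
      rintro ⟨⟨x', y'⟩, hxy'⟩ hy'
      have hy'' : y' = qn n := hy'
      subst hy''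
      have hx' : x' = ptop := by
        rcases hxy' with h | h
        · exact absurd h (qn_ne_qtop n)
        · exact h
      subst hx'
      exact hmem
    · -- the corner
      rw [f_corner] at hmem
      have h1 : (p0, qn 0) ∈ U := hmem (by simp)
      have h2 : (p0, qtop) ∈ U := hmem (by simp)
      let V : Set Q := {y | (p0, y) ∈ U}
      have hV : IsOpen V := hU.preimage (by fun_prop)
      have ho : IsOpen {a : A | a.1.2 ∈ V} := hV.preimage (continuous_snd.comp continuous_subtype_val)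
      refine mem_nhds_iff.mpr ⟨_, ?_, ho, h2⟩
      rintro ⟨⟨x', y'⟩, hxy'⟩ hy'
      have hy'' : (p0, y') ∈ U := hy'
      simp only [mem_ofPred_eq]
      by_cases hx' : x' = ptop
      · subst hx'
        rcases nat_or_eq_Q y' with ⟨n, rfl⟩ | rfl
        · rw [f_right]
          simpa using hy''
        · rw [f_corner]
          intro z hz
          rcases hz with rfl | rfl
          · exact h1
          · exact h2
      · have hyt : y' = qtop := by
          rcases hxy' with h | h
          · exact h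
          · exact absurd h hx'
        subst hyt
        rw [f_top hx']
        simpa using h1

/-- **The Tychonoff plank is not set-self-Tietze.** -/
theorem result : ¬ SetSelfTietze Plank := by
  intro h
  obtain ⟨F, hFne, hF, hFf⟩ := h A isClosed_A (fun a => f a.1) (fun a => by
    obtain ⟨⟨x, y⟩, hxy⟩ := a
    change (f (x, y)).Nonempty ∧ IsClosed (f (x, y))
    unfold f
    split_ifs
    · exact ⟨⟨_, Or.inl rfl⟩, (Set.toFinite _).isClosed⟩
    · exact ⟨⟨_, rfl⟩, isClosed_singleton⟩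
    · exact ⟨⟨_, rfl⟩, isClosed_singleton⟩) usc_f
  have hopen : ∀ n : ℕ, IsOpen ({(p0, qn n)} : Set Plank) := by
    intro n
    rw [← singleton_prod_singleton]
    exact isOpen_p0.prod (isOpen_qn n)
  have h1 : ∀ n : ℕ, ∃ a : Ordinal.{0}, a < ω₁ ∧ ∀ b : P, a < b.1 → F (b, qn n) ⊆ {(p0, qn n)} := by
    intro n
    have ho := hF _ (hopen n)
    have ho' : IsOpen {b : P | F (b, qn n) ⊆ {(p0, qn n)}} :=
      ho.preimage (show Continuous (fun b : P => ((b, qn n) : Plank)) by fun_prop)
    have h2 : F (ptop, qn n) = f (ptop, qn n) := hFf ⟨(ptop, qn n), Or.inr rfl⟩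
    have h3 : ptop ∈ {b : P | F (b, qn n) ⊆ {(p0, qn n)}} := by
      rw [mem_ofPred_eq, h2, f_right]
    obtain ⟨a, ha, hab⟩ := evP ho' h3
    exact ⟨a, ha, fun b hb => hab b hb⟩
  choose a ha1 ha2 using h1
  have hsup : ⨆ n, a n < ω₁ := Ordinal.iSup_lt_omega_one ha1
  have hlim : Order.IsSuccLimit (ω₁ : Ordinal.{0}) := Cardinal.isSuccLimit_omega 1
  let b : P := ⟨Order.succ (⨆ n, a n), mem_Iic.mpr (hlim.succ_lt hsup).le⟩
  have hb : b ≠ ptop := fun h => (hlim.succ_lt hsup).ne (congrArg Subtype.val h)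
  have hab : ∀ n, a n < b.1 := fun n =>
    lt_of_le_of_lt (Ordinal.le_iSup a n) (Order.lt_succ _)
  have h3 : ∀ n, F (b, qn n) ⊆ {(p0, qn n)} := fun n => ha2 n b (hab n)
  -- near the top edge
  have h4 : F (b, qtop) = {(p0, qn 0)} := by
    rw [hFf ⟨(b, qtop), Or.inl rfl⟩]
    exact f_top hb
  have ho : IsOpen {y : Q | F (b, y) ⊆ {(p0, qn 0)}} :=
    (hF _ (hopen 0)).preimage (show Continuous (fun y : Q => ((b, y) : Plank)) by fun_prop)
  obtain ⟨n, hn⟩ := evQ ho (by simp only [mem_ofPred_eq]; rw [h4])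
  have h5 := hn (n + 1) (Nat.lt_succ_self n)
  simp only [mem_ofPred_eq] at h5
  have h6 := h3 (n + 1)
  obtain ⟨F', hF'⟩ := (hFne (b, qn (n + 1))).1
  have h7 := h5 hF'
  have h8 := h6 hF'
  rw [mem_singleton_iff] at h7 h8
  rw [h7] at h8
  have := qn_inj (congrArg Prod.snd h8)
  omega

end Pool.Agent.Results.MP_231ef3_gt.PlankFails
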